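import Pool.Agent.H181R5.NLT.Stmts

/-!
# A large clique in a nearly semicomplete digraph
-/

set_option autoImplicit false

namespace Pool.Agent.H795R3.NLT

open Finset Pool.Agent.H181R5.NLH Pool.Agent.H181R5.NLT

theorem taskTuran : TaskTuran := by
  intro V _ _ H q hq hn hM
  classical
  set n := Fintype.card V with hnn
  set M := (univ.filter fun e : V × V => e ∉ H ∧ (e.2, e.1) ∉ H).card with hMM
  let N : V → Finset V := fun v => univ.filter fun w => (v, w) ∉ H ∧ (w, v) ∉ H
  have hMsum : M = ∑ v, (N v).card := by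
    rw [hMM]
    simp only [N, Finset.card_filter]
    rw [Fintype.sum_prod_type]
  have hn0 : 0 < n := by omega
  let G0 : Finset V := univ.filter fun v => 8 * q * (N v).card ≤ n
  let B : Finset V := univ.filter fun v => ¬ (8 * q * (N v).card ≤ n)
  have hGB : G0.card + B.card = n := by
    rw [hnn, ← Finset.card_univ]
    exact Finset.card_filter_add_card_filter_not (s := (univ : Finset V))
      (fun v => 8 * q * (N v).card ≤ n)
  have hB : B.card * n ≤ 8 * q * M := by
    calc B.card * n = ∑ _v ∈ B, n := by rw [Finset.sum_const, smul_eq_mul]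
      _ ≤ ∑ v ∈ B, 8 * q * (N v).card := by
          refine Finset.sum_le_sum fun v hv => ?_
          have := (Finset.mem_filter.1 hv).2
          omega
      _ ≤ ∑ v, 8 * q * (N v).card :=
          Finset.sum_le_sum_of_subset (Finset.subset_univ _)
      _ = 8 * q * M := by rw [hMsum, Finset.mul_sum]
  have hB2 : 2 * B.card ≤ n := by
    by_contra hcon
    push Not at hcon
    have h1 : n * n < 2 * B.card * n := Nat.mul_lt_mul_of_pos_right hcon hn0
    nlinarith
  have hG : n ≤ 2 * G0.card := by omega
  -- a maximal clique in `G0`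
  let F : Finset (Finset V) := G0.powerset.filter fun S =>
    ∀ a ∈ S, ∀ b ∈ S, a ≠ b → (a, b) ∈ H ∨ (b, a) ∈ H
  have hF : F.Nonempty := ⟨∅, by simp [F]⟩
  obtain ⟨S, hS, hmax⟩ := Finset.exists_max_image F Finset.card hF
  obtain ⟨hSG, hScl⟩ := Finset.mem_filter.1 hS
  rw [Finset.mem_powerset] at hSG
  refine ⟨S, ?_, hScl⟩
  by_contra hcon
  push Not at hcon
  have hcov : G0 ⊆ S ∪ S.biUnion N := by
    intro w hw
    by_contra hw2
    rw [Finset.mem_union, not_or, Finset.mem_biUnion] at hw2
    obtain ⟨hwS, hwN⟩ := hw2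
    push Not at hwN
    have hadj : ∀ v ∈ S, (v, w) ∈ H ∨ (w, v) ∈ H := by
      intro v hv
      have h1 := hwN v hv
      by_contra h2
      push Not at h2
      exact h1 (Finset.mem_filter.2 ⟨Finset.mem_univ _, h2⟩)
    have hins : insert w S ∈ F := by
      refine Finset.mem_filter.2 ⟨?_, ?_⟩
      · rw [Finset.mem_powerset]
        exact Finset.insert_subset hw hSG
      · intro a ha b hb hab
        rw [Finset.mem_insert] at ha hb
        rcases ha with rfl | ha
        · rcases hb with rfl | hb
          · exact absurd rfl hab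
          · exact (hadj b hb).symm
        · rcases hb with rfl | hb
          · exact hadj a ha
          · exact hScl a ha b hb hab
    have h1 := hmax _ hins
    rw [Finset.card_insert_of_notMem hwS] at h1
    omega
  have hcard : G0.card ≤ S.card + ∑ v ∈ S, (N v).card :=
    calc G0.card ≤ (S ∪ S.biUnion N).card := Finset.card_le_card hcov
      _ ≤ S.card + (S.biUnion N).card := Finset.card_union_le _ _
      _ ≤ S.card + ∑ v ∈ S, (N v).card := by
          gcongr
          exact Finset.card_biUnion_le
  have hsum : 8 * q * ∑ v ∈ S, (N v).card ≤ S.card * n := by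
    rw [Finset.mul_sum]
    calc ∑ v ∈ S, 8 * q * (N v).card ≤ ∑ _v ∈ S, n :=
          Finset.sum_le_sum fun v hv => (Finset.mem_filter.1 (hSG hv)).2
      _ = S.card * n := by rw [Finset.sum_const, smul_eq_mul]
  have h1 : 8 * q * G0.card ≤ 8 * q * S.card + S.card * n := by
    calc 8 * q * G0.card ≤ 8 * q * (S.card + ∑ v ∈ S, (N v).card) := Nat.mul_le_mul_left _ hcard
      _ = 8 * q * S.card + 8 * q * ∑ v ∈ S, (N v).card := by ring
      _ ≤ 8 * q * S.card + S.card * n := by omega
  have h2 : 8 * q * S.card ≤ n * S.card := Nat.mul_le_mul_right _ hn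
  have h3 : 4 * q * n ≤ 8 * q * G0.card := by
    calc 4 * q * n ≤ 4 * q * (2 * G0.card) := Nat.mul_le_mul_left _ hG
      _ = 8 * q * G0.card := by ring
  have h4 : S.card * n < q * n := Nat.mul_lt_mul_of_pos_right hcon hn0
  nlinarith

end Pool.Agent.H795R3.NLT
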