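import Mathlib

/-!
# Periods of the family `E_c × E_c^{(s)}` over the punctured line: definitions

`E_c : y² = x (x - 1) (x + c)` and its quadratic twist `E_c^{(s)} : s y² = x (x - 1) (x + c)`.
The fibre `A_s = E_c × E_c^{(s)}` of the smooth projective family over `S = 𝔾_m` is an abelian
surface. Its first de Rham cohomology has the algebraic basis
`dx₁/y₁, x₁dx₁/y₁, dx₂/y₂, x₂dx₂/y₂` (differentials of the second kind, regular on the affine part),
and its first homology is recorded by the period vectors of smooth loops in the affine part: the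
period map `H₁(A_s, ℤ) → ℂ⁴` is injective because the comparison pairing is perfect.
-/

namespace Pool.Agent.H795R3.PeriodFam

open Complex MeasureTheory Set

noncomputable section

/-- The field of algebraic numbers in `ℂ`. -/
abbrev Qbar : IntermediateField ℚ ℂ := algebraicClosure ℚ ℂ

/-- Pairs of points of the affine plane: `((x₁, y₁), (x₂, y₂))`. -/
abbrev Pt : Type := (ℂ × ℂ) × (ℂ × ℂ)

/-- The cubic `x (x - 1) (x + c)`. -/
def cubic (c x : ℂ) : ℂ := x * (x - 1) * (x + c)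

/-- The affine part of `A_s = E_c × E_c^{(s)}`: `y₁² = f(x₁)` and `s y₂² = f(x₂)`. -/
def Fibre (c s : ℂ) : Set Pt :=
  {p | p.1.2 ^ 2 = cubic c p.1.1 ∧ s * p.2.2 ^ 2 = cubic c p.2.1}

/-- Smooth loops in the affine part of the fibre `A_s`. -/
structure IsLoop (c s : ℂ) (γ : ℝ → Pt) : Prop where
  smooth : ContDiff ℝ (⊤ : ℕ∞) γ
  periodic : Function.Periodic γ 1
  mem : ∀ t, γ t ∈ Fibre c s

/-- The integral of `x ^ k dx / y` along the plane path `σ = (x, y)`, `0 ≤ t ≤ 1`. -/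
def abelInt (k : ℕ) (σ : ℝ → ℂ × ℂ) : ℂ :=
  ∫ t in (0 : ℝ)..1, (σ t).1 ^ k * deriv (fun u => (σ u).1) t / (σ t).2

/-- The period vector of a loop: the integrals of `dx₁/y₁, x₁dx₁/y₁, dx₂/y₂, x₂dx₂/y₂`. -/
def per (γ : ℝ → Pt) : Fin 4 → ℂ :=
  ![abelInt 0 (fun t => (γ t).1), abelInt 1 (fun t => (γ t).1),
    abelInt 0 (fun t => (γ t).2), abelInt 1 (fun t => (γ t).2)]

/-- The lattice of periods: the image of `H₁(A_s, ℤ)` in the dual of de Rham cohomology. -/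
def Lam (c s : ℂ) : AddSubgroup (Fin 4 → ℂ) :=
  AddSubgroup.closure {v | ∃ γ, IsLoop c s γ ∧ per γ = v}

/-- A family of loops whose classes generate `H₁(A_s, ℤ)`. -/
structure Generates {ι : Type} (c s : ℂ) (γ : ι → ℝ → Pt) : Prop where
  loop : ∀ i, IsLoop c s (γ i)
  gen : AddSubgroup.closure (Set.range fun i => per (γ i)) = Lam c s

/-- Period matrix of a family of loops: rows indexed by the four differentials, columns by the
loops. -/
def perMat {ι : Type} (γ : ι → ℝ → Pt) : Matrix (Fin 4) ι ℂ := Matrix.of fun k j => per (γ j) k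

/-- The value at `(s, M)` of a polynomial over `Qbar` in `s` and the entries of a `4 × ι` matrix. -/
def ev {ι : Type} (F : MvPolynomial (Option (Fin 4 × ι)) Qbar) (q : ℂ × Matrix (Fin 4) ι ℂ) : ℂ :=
  MvPolynomial.aeval (fun o : Option (Fin 4 × ι) => o.elim q.1 fun ij => q.2 ij.1 ij.2) F

/-- The value at `M` of a polynomial over `Qbar` in the entries of a `4 × ι` matrix. -/
def ev₀ {ι : Type} (F : MvPolynomial (Fin 4 × ι) Qbar) (M : Matrix (Fin 4) ι ℂ) : ℂ :=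
  MvPolynomial.aeval (fun ij : Fin 4 × ι => M ij.1 ij.2) F

/-- `Z` is a closed subvariety defined over `Qbar` of `S × Y`, where `S = 𝔾_m`. -/
def IsClosedSub {ι : Type} (Y : Set (Matrix (Fin 4) ι ℂ)) (Z : Set (ℂ × Matrix (Fin 4) ι ℂ)) :
    Prop :=
  ∃ I : Set (MvPolynomial (Option (Fin 4 × ι)) Qbar),
    Z = {q | q.1 ≠ 0 ∧ q.2 ∈ Y ∧ ∀ F ∈ I, ev F q = 0}

/-- `Z` is a closed subvariety defined over `Qbar` of `Y`. -/
def IsClosedSub₀ {ι : Type} (Y : Set (Matrix (Fin 4) ι ℂ)) (Z : Set (Matrix (Fin 4) ι ℂ)) : Prop :=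
  ∃ I : Set (MvPolynomial (Fin 4 × ι) Qbar), Z = {M | M ∈ Y ∧ ∀ F ∈ I, ev₀ F M = 0}

/-- The smallest closed subvariety of `S × Y` defined over `Qbar` that contains `G`. -/
def BVar {ι : Type} (Y : Set (Matrix (Fin 4) ι ℂ)) (G : Set (ℂ × Matrix (Fin 4) ι ℂ)) :
    Set (ℂ × Matrix (Fin 4) ι ℂ) :=
  ⋂₀ {Z | IsClosedSub Y Z ∧ G ⊆ Z}

/-- The `Qbar`-Zariski closure in `Y` of the point `M₀`. -/
def ptClosure {ι : Type} (Y : Set (Matrix (Fin 4) ι ℂ)) (M₀ : Matrix (Fin 4) ι ℂ) :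
    Set (Matrix (Fin 4) ι ℂ) :=
  ⋂₀ {Z | IsClosedSub₀ Y Z ∧ M₀ ∈ Z}

/-- `F⁰ H₁(A_s, ℂ)`: the annihilator of the holomorphic one-forms `dx₁/y₁` and `dx₂/y₂` in the dual
of de Rham cohomology. -/
def F0 : Submodule ℂ (Fin 4 → ℂ) where
  carrier := {v | v 0 = 0 ∧ v 2 = 0}
  add_mem' := by
    rintro v w ⟨h1, h2⟩ ⟨h3, h4⟩
    simp [h1, h2, h3, h4]
  zero_mem' := by simp
  smul_mem' := by
    rintro r v ⟨h1, h2⟩
    simp [h1, h2]

/-- The integral Hodge structures `(H₁(A_s, ℤ), F⁰)` and `(H₁(A_{s'}, ℤ), F⁰)` are isomorphic. -/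
def HodgeIso (c s s' : ℂ) : Prop :=
  ∃ e : (Fin 4 → ℂ) ≃ₗ[ℂ] (Fin 4 → ℂ),
    (Lam c s).map e.toLinearMap.toAddMonoidHom = Lam c s' ∧ F0.map e.toLinearMap = F0

/-- A local frame over `U ⊆ S`: a continuous family of loops whose classes generate the homology of
every fibre, whose period matrix takes values in `Y` and depends holomorphically on `s`. -/
structure IsLocalFrame {ι : Type} (c : ℂ) (Y : Set (Matrix (Fin 4) ι ℂ)) (U : Set ℂ)
    (Γ : ℂ → ι → ℝ → Pt) : Prop where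
  cont : ∀ i, ContinuousOn (fun q : ℂ × ℝ => Γ q.1 i q.2) (U ×ˢ Set.univ)
  gen : ∀ s ∈ U, Generates c s (Γ s)
  mem : ∀ s ∈ U, perMat (Γ s) ∈ Y
  holo : ∀ k j, DifferentiableOn ℂ (fun s => perMat (Γ s) k j) U

/-- The graph of the period matrix of a frame over `U`. -/
def graph {ι : Type} (U : Set ℂ) (Γ : ℂ → ι → ℝ → Pt) : Set (ℂ × Matrix (Fin 4) ι ℂ) :=
  {q | q.1 ∈ U ∧ q.2 = perMat (Γ q.1)}

/-- `GL₄`, as a subset of the `4 × 4` matrices. -/
def GL4 : Set (Matrix (Fin 4) (Fin 4) ℂ) := {M | M.det ≠ 0}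

end

end Pool.Agent.H795R3.PeriodFam
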