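import Pool.Agent.H795R3.PeriodDefs

/-!
# Periods of the family `E_c × E_c^{(s)}` over the punctured line

`E_c : y² = x (x - 1) (x + c)` and its quadratic twist `E_c^{(s)} : s y² = x (x - 1) (x + c)`.
The fibre `A_s = E_c × E_c^{(s)}` of the smooth projective family over `S = 𝔾_m` is an abelian
surface. Its first de Rham cohomology has the algebraic basis
`dx₁/y₁, x₁dx₁/y₁, dx₂/y₂, x₂dx₂/y₂` (differentials of the second kind, regular on the affine part),
and its first homology is recorded by the period vectors of smooth loops in the affine part.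
-/

namespace Pool.Agent.H795R3.PeriodFam

open Complex MeasureTheory Set

noncomputable section

/-! ### The scaling maps -/

/-- `(x₂, y₂) ↦ (x₂, y₂ / ρ)` on the second factor. -/
def scale (ρ : ℂ) (p : Pt) : Pt := (p.1, (p.2.1, p.2.2 / ρ))

/-- The diagonal vector `(1, 1, ρ, ρ)`. -/
def dvec (ρ : ℂ) : Fin 4 → ℂ := ![1, 1, ρ, ρ]

theorem abelInt_scale (k : ℕ) (ρ : ℂ) (σ : ℝ → ℂ × ℂ) :
    abelInt k (fun t => ((σ t).1, (σ t).2 / ρ)) = ρ * abelInt k σ := by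
  unfold abelInt
  rw [← intervalIntegral.integral_const_mul]
  congr 1
  ext t
  simp only
  rw [div_div_eq_mul_div]
  ring

theorem per_scale (ρ : ℂ) (γ : ℝ → Pt) :
    per (fun t => scale ρ (γ t)) = dvec ρ * per γ := by
  have h0 := abelInt_scale 0 ρ (fun t => (γ t).2)
  have h1 := abelInt_scale 1 ρ (fun t => (γ t).2)
  ext i
  fin_cases i
  · simp [per, dvec, scale]
  · simp [per, dvec, scale]
  · simpa [per, dvec, scale] using h0
  · simpa [per, dvec, scale] using h1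

theorem isLoop_scale {c s ρ : ℂ} (hρ : ρ ≠ 0) {γ : ℝ → Pt} (h : IsLoop c s γ) :
    IsLoop c (ρ ^ 2 * s) (fun t => scale ρ (γ t)) := by
  refine ⟨?_, ?_, ?_⟩
  · have h1 := h.smooth
    unfold scale
    fun_prop
  · intro t
    simp only
    rw [h.periodic t]
  · intro t
    obtain ⟨h1, h2⟩ := h.mem t
    refine ⟨h1, ?_⟩
    simp only [scale]
    rw [← h2]
    field_simp

/-- Multiplication by `(1, 1, ρ, ρ)` as a linear equivalence. -/
def Deq (ρ : ℂ) (hρ : ρ ≠ 0) : (Fin 4 → ℂ) ≃ₗ[ℂ] (Fin 4 → ℂ) where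
  toFun v := dvec ρ * v
  invFun v := dvec ρ⁻¹ * v
  map_add' v w := by rw [mul_add]
  map_smul' r v := by simp
  left_inv v := by
    ext i
    fin_cases i <;> simp [dvec, hρ]
  right_inv v := by
    ext i
    fin_cases i <;> simp [dvec, hρ]

theorem Deq_apply (ρ : ℂ) (hρ : ρ ≠ 0) (v : Fin 4 → ℂ) : Deq ρ hρ v = dvec ρ * v := rfl

theorem Lam_scale_le {c s ρ : ℂ} (hρ : ρ ≠ 0) :
    (Lam c s).map (Deq ρ hρ).toLinearMap.toAddMonoidHom ≤ Lam c (ρ ^ 2 * s) := by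
  unfold Lam
  rw [AddMonoidHom.map_closure]
  apply AddSubgroup.closure_mono
  rintro _ ⟨v, ⟨γ, hγ, rfl⟩, rfl⟩
  exact ⟨_, isLoop_scale hρ hγ, per_scale ρ γ⟩

theorem Lam_scale {c s ρ : ℂ} (hρ : ρ ≠ 0) :
    (Lam c s).map (Deq ρ hρ).toLinearMap.toAddMonoidHom = Lam c (ρ ^ 2 * s) := by
  refine le_antisymm (Lam_scale_le hρ) ?_
  intro v hv
  have h1 := Lam_scale_le (c := c) (s := ρ ^ 2 * s) (inv_ne_zero hρ)
  have h2 : ρ⁻¹ ^ 2 * (ρ ^ 2 * s) = s := by field_simp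
  rw [h2] at h1
  refine ⟨(Deq ρ⁻¹ (inv_ne_zero hρ)) v, h1 ⟨v, hv, rfl⟩, ?_⟩
  show Deq ρ hρ (Deq ρ⁻¹ (inv_ne_zero hρ) v) = v
  simp only [Deq_apply]
  ext i
  fin_cases i <;> simp [dvec, hρ]

theorem generates_scale {ι : Type} {c s ρ : ℂ} (hρ : ρ ≠ 0) {γ : ι → ℝ → Pt}
    (h : Generates c s γ) : Generates c (ρ ^ 2 * s) (fun i t => scale ρ (γ i t)) := by
  refine ⟨fun i => isLoop_scale hρ (h.loop i), ?_⟩
  rw [← Lam_scale hρ, ← h.gen, AddMonoidHom.map_closure]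
  congr 1
  ext v
  constructor
  · rintro ⟨i, rfl⟩
    exact ⟨_, ⟨i, rfl⟩, (per_scale ρ (γ i)).symm⟩
  · rintro ⟨_, ⟨i, rfl⟩, rfl⟩
    exact ⟨i, per_scale ρ (γ i)⟩

/-! ### An explicit loop on `E_c` for `c > 0` -/

/-- First coordinate of the explicit loop. -/
def xR (c t : ℝ) : ℝ := -(c * Real.sin (Real.pi * t) ^ 2)

/-- Second coordinate of the explicit loop. -/
def yR (c t : ℝ) : ℝ :=
  c * Real.sin (Real.pi * t) * Real.cos (Real.pi * t) * √(1 + c * Real.sin (Real.pi * t) ^ 2)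

/-- The explicit loop over the real segment `[-c, 0]`. -/
def sg (c : ℝ) (t : ℝ) : ℂ × ℂ := ((xR c t : ℂ), (yR c t : ℂ))

theorem one_add_pos {c : ℝ} (hc : 0 < c) (t : ℝ) : 0 < 1 + c * Real.sin (Real.pi * t) ^ 2 := by
  positivity

theorem yR_sq {c : ℝ} (hc : 0 < c) (t : ℝ) :
    yR c t ^ 2 = xR c t * (xR c t - 1) * (xR c t + c) := by
  unfold yR xR
  have h1 := Real.sq_sqrt (one_add_pos hc t).le
  have h2 := Real.sin_sq_add_cos_sq (Real.pi * t)
  set S := Real.sin (Real.pi * t)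
  set C := Real.cos (Real.pi * t)
  have h3 : C ^ 2 = 1 - S ^ 2 := by linarith
  calc (c * S * C * √(1 + c * S ^ 2)) ^ 2 = c ^ 2 * S ^ 2 * C ^ 2 * √(1 + c * S ^ 2) ^ 2 := by ring
    _ = c ^ 2 * S ^ 2 * (1 - S ^ 2) * (1 + c * S ^ 2) := by rw [h1, h3]
    _ = _ := by ring

theorem sg_mem {c : ℝ} (hc : 0 < c) (t : ℝ) : (sg c t).2 ^ 2 = cubic c (sg c t).1 := by
  unfold sg cubic
  simp only
  exact_mod_cast yR_sq hc t

theorem xR_per (c t : ℝ) : xR c (t + 1) = xR c t := by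
  unfold xR
  rw [mul_add, mul_one, Real.sin_add_pi]
  ring

theorem yR_per (c t : ℝ) : yR c (t + 1) = yR c t := by
  unfold yR
  rw [mul_add, mul_one, Real.sin_add_pi, Real.cos_add_pi, neg_sq]
  ring

theorem sg_per (c t : ℝ) : sg c (t + 1) = sg c t := by
  unfold sg
  rw [xR_per, yR_per]

theorem xR_smooth (c : ℝ) : ContDiff ℝ (⊤ : ℕ∞) (xR c) := by
  unfold xR
  fun_prop

theorem yR_smooth {c : ℝ} (hc : 0 < c) : ContDiff ℝ (⊤ : ℕ∞) (yR c) := by
  unfold yR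
  have h : ContDiff ℝ (⊤ : ℕ∞) fun t => √(1 + c * Real.sin (Real.pi * t) ^ 2) := by
    apply ContDiff.sqrt
    · fun_prop
    · intro t
      exact (one_add_pos hc t).ne'
  fun_prop

theorem sg_smooth {c : ℝ} (hc : 0 < c) : ContDiff ℝ (⊤ : ℕ∞) (sg c) := by
  unfold sg
  exact (ofRealCLM.contDiff.comp (xR_smooth c)).prodMk (ofRealCLM.contDiff.comp (yR_smooth hc))

theorem xR_deriv (c t : ℝ) : HasDerivAt (xR c)
    (-(2 * Real.pi * c * Real.sin (Real.pi * t) * Real.cos (Real.pi * t))) t := by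
  unfold xR
  have h1 : HasDerivAt (fun u : ℝ => Real.pi * u) (Real.pi) t := by
    simpa using (hasDerivAt_id t).const_mul Real.pi
  have h2 := ((h1.sin.pow 2).const_mul c).neg
  refine (h2.congr_deriv ?_)
  simp only [Nat.cast_ofNat]
  ring

/-- The explicit value of the first period of the loop. -/
theorem abelInt_sg {c : ℝ} (hc : 0 < c) :
    abelInt 0 (sg c) =
      ((∫ t in (0 : ℝ)..1, -(2 * Real.pi / √(1 + c * Real.sin (Real.pi * t) ^ 2)) : ℝ) : ℂ) := by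
  unfold abelInt
  rw [← intervalIntegral.integral_ofReal]
  apply intervalIntegral.integral_congr_ae
  have h0 : ∀ᵐ t : ℝ ∂volume, t ∉ ({1 / 2, 1} : Set ℝ) :=
    (Set.toFinite ({1 / 2, 1} : Set ℝ)).countable.ae_notMem _
  filter_upwards [h0] with t ht hmem
  rw [Set.uIoc_of_le zero_le_one] at hmem
  simp only [Set.mem_insert_iff, Set.mem_singleton_iff, not_or] at ht
  have hpi := Real.pi_pos
  have hS : Real.sin (Real.pi * t) ≠ 0 := by
    apply ne_of_gt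
    apply Real.sin_pos_of_pos_of_lt_pi
    · have := hmem.1
      positivity
    · have h1 : t < 1 := lt_of_le_of_ne hmem.2 ht.2
      nlinarith
  have hC : Real.cos (Real.pi * t) ≠ 0 := by
    rcases lt_or_gt_of_ne ht.1 with h | h
    · apply ne_of_gt
      apply Real.cos_pos_of_mem_Ioo
      constructor
      · have := hmem.1
        nlinarith
      · nlinarith
    · apply ne_of_lt
      apply Real.cos_neg_of_pi_div_two_lt_of_lt
      · nlinarith
      · have := hmem.2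
        nlinarith
  have hd : deriv (fun u => (sg c u).1) t =
      ((-(2 * Real.pi * c * Real.sin (Real.pi * t) * Real.cos (Real.pi * t)) : ℝ) : ℂ) :=
    (xR_deriv c t).ofReal_comp.deriv
  rw [hd]
  simp only [sg, pow_zero, one_mul]
  rw [← Complex.ofReal_div]
  congr 1
  unfold yR
  have h1 : √(1 + c * Real.sin (Real.pi * t) ^ 2) ≠ 0 :=
    (Real.sqrt_pos.mpr (one_add_pos hc t)).ne'
  field_simp

theorem abelInt_sg_ne {c : ℝ} (hc : 0 < c) : abelInt 0 (sg c) ≠ 0 := by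
  rw [abelInt_sg hc]
  rw [Complex.ofReal_ne_zero, intervalIntegral.integral_neg, neg_ne_zero]
  apply ne_of_gt
  have hcont : Continuous fun t : ℝ => 2 * Real.pi / √(1 + c * Real.sin (Real.pi * t) ^ 2) := by
    apply Continuous.div (by fun_prop)
    · fun_prop
    · intro t
      exact (Real.sqrt_pos.mpr (one_add_pos hc t)).ne'
  apply intervalIntegral.intervalIntegral_pos_of_pos_on (hcont.intervalIntegrable _ _) _ zero_lt_one
  intro t _
  have := Real.sqrt_pos.mpr (one_add_pos hc t)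
  have := Real.pi_pos
  positivity

/-- The loop `(σ, pt)`. -/
def lpA (c : ℝ) (t : ℝ) : Pt := (sg c t, ((0 : ℂ), (0 : ℂ)))

/-- The loop `(pt, σ)` on the fibre over `s = w ^ 2`. -/
def lpB (c : ℝ) (w : ℂ) (t : ℝ) : Pt := (((0 : ℂ), (0 : ℂ)), ((sg c t).1, (sg c t).2 / w))

theorem isLoop_lpA {c : ℝ} (hc : 0 < c) (s : ℂ) : IsLoop c s (lpA c) := by
  refine ⟨?_, ?_, ?_⟩
  · unfold lpA
    exact (sg_smooth hc).prodMk contDiff_const
  · intro t
    unfold lpA
    rw [sg_per]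
  · intro t
    refine ⟨sg_mem hc t, ?_⟩
    simp [lpA, cubic]

theorem isLoop_lpB {c : ℝ} (hc : 0 < c) {w : ℂ} (hw : w ≠ 0) : IsLoop c (w ^ 2) (lpB c w) := by
  refine ⟨?_, ?_, ?_⟩
  · unfold lpB
    have h := sg_smooth hc
    have h1 : ContDiff ℝ (⊤ : ℕ∞) fun t => (sg c t).1 := contDiff_fst.comp h
    have h2 : ContDiff ℝ (⊤ : ℕ∞) fun t => (sg c t).2 := contDiff_snd.comp h
    exact contDiff_const.prodMk (h1.prodMk (h2.div_const w))
  · intro t
    unfold lpB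
    rw [sg_per]
  · intro t
    refine ⟨?_, ?_⟩
    · simp [lpB, cubic]
    · simp only [lpB]
      rw [← sg_mem hc t]
      field_simp

theorem abelInt_const (k : ℕ) (p : ℂ × ℂ) : abelInt k (fun _ => p) = 0 := by
  unfold abelInt
  simp

theorem per_lpA_zero (c : ℝ) : per (lpA c) 0 = abelInt 0 (sg c) := by
  simp [per, lpA]

theorem per_lpB_two (c : ℝ) (w : ℂ) : per (lpB c w) 2 = w * abelInt 0 (sg c) := by
  have h := abelInt_scale 0 w (sg c)
  simpa [per, lpB] using h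

/-! ### Zariski closures over the algebraic numbers -/

/-- Row scaling by `(1, 1, ρ, ρ)`. -/
def Dm {ι : Type} (ρ : ℂ) (M : Matrix (Fin 4) ι ℂ) : Matrix (Fin 4) ι ℂ :=
  Matrix.diagonal (dvec ρ) * M

theorem Dm_apply {ι : Type} (ρ : ℂ) (M : Matrix (Fin 4) ι ℂ) (k : Fin 4) (j : ι) :
    Dm ρ M k j = dvec ρ k * M k j := by
  unfold Dm
  rw [Matrix.diagonal_mul]

theorem perMat_scale {ι : Type} (ρ : ℂ) (γ : ι → ℝ → Pt) :
    perMat (fun i t => scale ρ (γ i t)) = Dm ρ (perMat γ) := by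
  ext k j
  rw [Dm_apply]
  simp only [perMat, Matrix.of_apply]
  rw [per_scale]
  rfl

/-- A polynomial vanishing on the branch `ρ ↦ (s₀ρ², D(ρ)M₀)` for infinitely many `ρ` vanishes at
the other branch over `s₀`. -/
theorem ev_branch {ι : Type} (F : MvPolynomial (Option (Fin 4 × ι)) Qbar) (s₀ : ℂ)
    (M₀ : Matrix (Fin 4) ι ℂ) (T : Set ℂ) (hT : T.Infinite)
    (h : ∀ ρ ∈ T, ev F (ρ ^ 2 * s₀, Dm ρ M₀) = 0) (ρ : ℂ) : ev F (ρ ^ 2 * s₀, Dm ρ M₀) = 0 := by
  classical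
  let pv : Fin 4 → Polynomial ℂ := ![1, 1, Polynomial.X, Polynomial.X]
  let H : Polynomial ℂ := MvPolynomial.aeval (R := Qbar)
    (fun o : Option (Fin 4 × ι) => o.elim (Polynomial.X ^ 2 * Polynomial.C s₀)
      fun ij => pv ij.1 * Polynomial.C (M₀ ij.1 ij.2)) F
  have key : ∀ r : ℂ, H.eval r = ev F (r ^ 2 * s₀, Dm r M₀) := by
    intro r
    have h1 : H.eval r = (((Polynomial.aeval r : Polynomial ℂ →ₐ[ℂ] ℂ).restrictScalars Qbar)) H := by
      simp [Polynomial.aeval_def, Polynomial.eval₂_eq_eval_map]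
    rw [h1]
    simp only [H, ev]
    rw [← AlgHom.comp_apply, MvPolynomial.comp_aeval]
    congr 2
    ext o
    cases o with
    | none =>
      simp
      ring
    | some ij =>
      obtain ⟨i, j⟩ := ij
      simp only [Option.elim]
      rw [Dm_apply]
      fin_cases i <;> simp [pv, dvec] <;> ring
  have hH : H = 0 := by
    apply Polynomial.eq_zero_of_infinite_isRoot
    apply hT.mono
    intro r hr
    show H.IsRoot r
    rw [Polynomial.IsRoot.def, key r]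
    exact h r hr
  rw [← key ρ, hH, Polynomial.eval_zero]

/-- The linear relation: for a generating family over `s₀ = w²` there is a linear form in the
entries, with coefficients in any field containing `w`, which vanishes on the period matrix but not
on the other branch. -/
theorem exists_relation {ι : Type} {c : ℝ} (hc : 0 < c) {w : ℂ} (hw : w ≠ 0)
    {γ : ι → ℝ → Pt} (h : Generates c (w ^ 2) γ) (k : Type) [Field k] [Algebra k ℂ] (w' : k)
    (hw' : algebraMap k ℂ w' = w) :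
    ∃ F : MvPolynomial (Fin 4 × ι) k, F.totalDegree ≤ 1 ∧
      MvPolynomial.aeval (fun ij : Fin 4 × ι => perMat γ ij.1 ij.2) F = 0 ∧
      MvPolynomial.aeval (fun ij : Fin 4 × ι => Dm (-1) (perMat γ) ij.1 ij.2) F ≠ 0 := by
  classical
  have hA : per (lpA c) ∈ AddSubgroup.closure (Set.range fun i => per (γ i)) := by
    rw [h.gen]
    exact AddSubgroup.subset_closure ⟨_, isLoop_lpA hc _, rfl⟩
  have hB : per (lpB c w) ∈ AddSubgroup.closure (Set.range fun i => per (γ i)) := by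
    rw [h.gen]
    exact AddSubgroup.subset_closure ⟨_, isLoop_lpB hc hw, rfl⟩
  obtain ⟨n, hn⟩ := AddSubgroup.mem_closure_range_iff.mp hA
  obtain ⟨m, hm⟩ := AddSubgroup.mem_closure_range_iff.mp hB
  have hn0 : ∑ i ∈ n.support, (n i : ℂ) * per (γ i) 0 = abelInt 0 (sg c) := by
    have h1 := congrFun hn 0
    rw [per_lpA_zero] at h1
    rw [h1, Finsupp.sum, Finset.sum_apply]
    apply Finset.sum_congr rfl
    intro i _
    simp
  have hm2 : ∑ i ∈ m.support, (m i : ℂ) * per (γ i) 2 = w * abelInt 0 (sg c) := by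
    have h1 := congrFun hm 2
    rw [per_lpB_two] at h1
    rw [h1, Finsupp.sum, Finset.sum_apply]
    apply Finset.sum_congr rfl
    intro i _
    simp
  let F : MvPolynomial (Fin 4 × ι) k :=
    (∑ i ∈ n.support, MvPolynomial.C (w' * (n i : k)) * MvPolynomial.X ((0 : Fin 4), i)) -
      ∑ i ∈ m.support, MvPolynomial.C ((m i : k)) * MvPolynomial.X ((2 : Fin 4), i)
  have hF : ∀ M : Matrix (Fin 4) ι ℂ, MvPolynomial.aeval (fun ij : Fin 4 × ι => M ij.1 ij.2) F =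
      w * ∑ i ∈ n.support, (n i : ℂ) * M 0 i - ∑ i ∈ m.support, (m i : ℂ) * M 2 i := by
    intro M
    simp only [F, map_sub, map_sum, map_mul, MvPolynomial.aeval_C, MvPolynomial.aeval_X, hw',
      map_intCast, Finset.mul_sum]
    congr 1
    apply Finset.sum_congr rfl
    intro i _
    ring
  have hdeg : F.totalDegree ≤ 1 := by
    apply (MvPolynomial.totalDegree_sub _ _).trans
    apply max_le
    · apply MvPolynomial.totalDegree_finsetSum_le
      intro i _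
      apply (MvPolynomial.totalDegree_mul _ _).trans
      rw [MvPolynomial.totalDegree_C, MvPolynomial.totalDegree_X]
    · apply MvPolynomial.totalDegree_finsetSum_le
      intro i _
      apply (MvPolynomial.totalDegree_mul _ _).trans
      rw [MvPolynomial.totalDegree_C, MvPolynomial.totalDegree_X]
  refine ⟨F, hdeg, ?_, ?_⟩
  · rw [hF]
    simp only [perMat, Matrix.of_apply]
    rw [hn0, hm2, sub_self]
  · rw [hF]
    simp only [Dm_apply, perMat, Matrix.of_apply]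
    have e0 : dvec (-1) 0 = 1 := rfl
    have e2 : dvec (-1) 2 = -1 := rfl
    simp only [e0, e2, one_mul]
    have h3 : ∑ i ∈ m.support, (m i : ℂ) * (-1 * per (γ i) 2) = -(w * abelInt 0 (sg c)) := by
      rw [← hm2, ← Finset.sum_neg_distrib]
      apply Finset.sum_congr rfl
      intro i _
      ring
    rw [hn0, h3, sub_neg_eq_add, ← two_mul]
    exact mul_ne_zero two_ne_zero (mul_ne_zero hw (abelInt_sg_ne hc))

/-! ### Hodge structures of the fibres -/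

theorem hodgeIso_scale {c s ρ : ℂ} (hρ : ρ ≠ 0) : HodgeIso c s (ρ ^ 2 * s) := by
  refine ⟨Deq ρ hρ, Lam_scale hρ, ?_⟩
  ext v
  constructor
  · rintro ⟨w, ⟨h1, h2⟩, rfl⟩
    constructor
    · show dvec ρ 0 * w 0 = 0
      rw [h1, mul_zero]
    · show dvec ρ 2 * w 2 = 0
      rw [h2, mul_zero]
  · rintro ⟨h1, h2⟩
    refine ⟨dvec ρ⁻¹ * v, ⟨?_, ?_⟩, ?_⟩
    · show dvec ρ⁻¹ 0 * v 0 = 0
      rw [h1, mul_zero]
    · show dvec ρ⁻¹ 2 * v 2 = 0
      rw [h2, mul_zero]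
    · show dvec ρ * (dvec ρ⁻¹ * v) = v
      ext i
      fin_cases i <;> simp [dvec, hρ]

theorem hodgeIso_all (c : ℂ) {s s' : ℂ} (hs : s ≠ 0) (hs' : s' ≠ 0) : HodgeIso c s s' := by
  obtain ⟨ρ, hρ⟩ := IsAlgClosed.exists_pow_nat_eq (s' / s) (n := 2) (by norm_num)
  have hρ0 : ρ ≠ 0 := by
    rintro rfl
    have : s' / s ≠ 0 := div_ne_zero hs' hs
    apply this
    rw [← hρ]
    norm_num
  have h := hodgeIso_scale (c := c) (s := s) hρ0
  have e : ρ ^ 2 * s = s' := by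
    rw [hρ]
    field_simp
  rwa [e] at h

/-! ### Local bases of the local system and the main inequality -/

/-- The branch of `√(s / s₀)` near `s₀`. -/
def rt (s₀ s : ℂ) : ℂ := exp (log (s / s₀) / 2)

theorem rt_ne (s₀ s : ℂ) : rt s₀ s ≠ 0 := exp_ne_zero _

theorem rt_self {s₀ : ℂ} (h : s₀ ≠ 0) : rt s₀ s₀ = 1 := by
  unfold rt
  rw [div_self h]
  simp

theorem ball_ne {s₀ s : ℂ} (h : s ∈ Metric.ball s₀ ‖s₀‖) : s ≠ 0 := by
  rintro rfl
  rw [Metric.mem_ball, dist_eq_norm, zero_sub, norm_neg] at h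
  exact lt_irrefl _ h

theorem rt_sq {s₀ s : ℂ} (h : s₀ ≠ 0) (hs : s ≠ 0) : rt s₀ s ^ 2 * s₀ = s := by
  unfold rt
  rw [← exp_nat_mul]
  have e : ((2 : ℕ) : ℂ) * (log (s / s₀) / 2) = log (s / s₀) := by
    push_cast
    ring
  rw [e, exp_log (div_ne_zero hs h)]
  field_simp

theorem div_mem_slit {s₀ s : ℂ} (h : s₀ ≠ 0) (hs : s ∈ Metric.ball s₀ ‖s₀‖) :
    s / s₀ ∈ slitPlane := by
  have h1 : ‖(s - s₀) / s₀‖ < 1 := by
    rw [norm_div, div_lt_one (norm_pos_iff.mpr h)]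
    rwa [Metric.mem_ball, dist_eq_norm] at hs
  have h2 := mem_slitPlane_of_norm_lt_one h1
  have h3 : 1 + (s - s₀) / s₀ = s / s₀ := by
    field_simp
    ring
  rwa [h3] at h2

theorem rt_diff {s₀ : ℂ} (h : s₀ ≠ 0) : DifferentiableOn ℂ (rt s₀) (Metric.ball s₀ ‖s₀‖) := by
  intro s hs
  unfold rt
  apply DifferentiableAt.differentiableWithinAt
  apply DifferentiableAt.cexp
  apply DifferentiableAt.div_const
  apply DifferentiableAt.clog
  · fun_prop
  · exact div_mem_slit h hs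

theorem rt_real {s₀ : ℂ} (h : s₀ ≠ 0) {r : ℝ} (hr : 0 < r) :
    rt s₀ ((r : ℂ) ^ 2 * s₀) = r := by
  unfold rt
  have e : (r : ℂ) ^ 2 * s₀ / s₀ = ((r ^ 2 : ℝ) : ℂ) := by
    push_cast
    field_simp
  rw [e, ← ofReal_log (by positivity)]
  rw [Real.log_pow]
  have e2 : ((((2 : ℕ) : ℝ) * Real.log r : ℝ) : ℂ) / 2 = ((Real.log r : ℝ) : ℂ) := by
    push_cast
    ring
  rw [e2, ← ofReal_exp, Real.exp_log hr]

/-- The frame obtained by transporting loops over `s₀` with the isomorphisms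
`(x₂, y₂) ↦ (x₂, y₂ / √(s / s₀))`. -/
def frame {ι : Type} (s₀ : ℂ) (γ : ι → ℝ → Pt) (s : ℂ) (i : ι) (t : ℝ) : Pt :=
  scale (rt s₀ s) (γ i t)

theorem frame_self {ι : Type} {s₀ : ℂ} (h : s₀ ≠ 0) (γ : ι → ℝ → Pt) : frame s₀ γ s₀ = γ := by
  funext i t
  unfold frame
  rw [rt_self h]
  simp [scale]

theorem isLocalFrame_frame {ι : Type} {c : ℂ} {Y : Set (Matrix (Fin 4) ι ℂ)}
    (hY : ∀ ρ : ℂ, ρ ≠ 0 → ∀ M ∈ Y, Dm ρ M ∈ Y) {s₀ : ℂ} (h0 : s₀ ≠ 0) {γ : ι → ℝ → Pt}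
    (h : Generates c s₀ γ) (hM : perMat γ ∈ Y) :
    IsLocalFrame c Y (Metric.ball s₀ ‖s₀‖) (frame s₀ γ) := by
  refine ⟨?_, ?_, ?_, ?_⟩
  · intro i
    have h1 : ContinuousOn (fun q : ℂ × ℝ => rt s₀ q.1) (Metric.ball s₀ ‖s₀‖ ×ˢ Set.univ) :=
      (rt_diff h0).continuousOn.comp continuousOn_fst fun q hq => hq.1
    have h2 : Continuous (fun q : ℂ × ℝ => γ i q.2) :=
      (h.loop i).smooth.continuous.comp continuous_snd
    unfold frame scale
    apply ContinuousOn.prodMk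
    · exact (continuous_fst.comp h2).continuousOn
    · apply ContinuousOn.prodMk
      · exact (continuous_fst.comp (continuous_snd.comp h2)).continuousOn
      · apply ContinuousOn.div
        · exact (continuous_snd.comp (continuous_snd.comp h2)).continuousOn
        · exact h1
        · intro q _
          exact rt_ne _ _
  · intro s hs
    have h1 := generates_scale (rt_ne s₀ s) h
    rw [rt_sq h0 (ball_ne hs)] at h1
    exact h1
  · intro s _
    have h1 := hY _ (rt_ne s₀ s) _ hM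
    rwa [← perMat_scale] at h1
  · intro k j
    have e : (fun s => perMat (frame s₀ γ s) k j) = fun s => dvec (rt s₀ s) k * perMat γ k j := by
      funext s
      have := perMat_scale (rt s₀ s) γ
      unfold frame
      rw [this, Dm_apply]
    rw [e]
    apply DifferentiableOn.mul_const
    fin_cases k
    · simp only [dvec]
      exact differentiableOn_const _
    · simp only [dvec]
      exact differentiableOn_const _
    · exact rt_diff h0
    · exact rt_diff h0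

theorem perMat_frame {ι : Type} (s₀ s : ℂ) (γ : ι → ℝ → Pt) :
    perMat (frame s₀ γ s) = Dm (rt s₀ s) (perMat γ) := perMat_scale _ _

/-- The other branch over `s₀` lies in the closure of the graph. -/
theorem other_mem {ι : Type} {Y : Set (Matrix (Fin 4) ι ℂ)}
    (hY : ∀ ρ : ℂ, ρ ≠ 0 → ∀ M ∈ Y, Dm ρ M ∈ Y) {s₀ : ℂ} (h0 : s₀ ≠ 0) {γ : ι → ℝ → Pt}
    (hM : perMat γ ∈ Y)
    {G : Set (ℂ × Matrix (Fin 4) ι ℂ)} (hG : graph (Metric.ball s₀ ‖s₀‖) (frame s₀ γ) ⊆ G) :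
    (s₀, Dm (-1) (perMat γ)) ∈ BVar Y G := by
  rintro Z ⟨⟨I, rfl⟩, hZ⟩
  refine ⟨h0, hY _ (by norm_num) _ hM, ?_⟩
  intro F hF
  have hT : (((fun r : ℝ => (r : ℂ)) '' Set.Ioo 1 (6 / 5)) : Set ℂ).Infinite := by
    apply Set.Infinite.image
    · exact Complex.ofReal_injective.injOn
    · exact Set.Ioo_infinite (by norm_num)
  have h1 := ev_branch F s₀ (perMat γ) _ hT ?_ (-1)
  · simpa using h1
  · rintro _ ⟨r, ⟨hr1, hr2⟩, rfl⟩
    have hr0 : 0 < r := by linarith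
    have hmem : ((r : ℂ) ^ 2 * s₀) ∈ Metric.ball s₀ ‖s₀‖ := by
      rw [Metric.mem_ball, dist_eq_norm]
      have e : (r : ℂ) ^ 2 * s₀ - s₀ = ((r ^ 2 - 1 : ℝ) : ℂ) * s₀ := by
        push_cast
        ring
      rw [e, norm_mul, Complex.norm_real, Real.norm_eq_abs, abs_of_pos (by nlinarith)]
      have h6 : 0 < ‖s₀‖ := norm_pos_iff.mpr h0
      have h7 : r ^ 2 - 1 < 1 := by nlinarith
      calc (r ^ 2 - 1) * ‖s₀‖ < 1 * ‖s₀‖ := mul_lt_mul_of_pos_right h7 h6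
        _ = ‖s₀‖ := one_mul _
    have h2 : (((r : ℂ) ^ 2 * s₀), Dm (r : ℂ) (perMat γ)) ∈
        graph (Metric.ball s₀ ‖s₀‖) (frame s₀ γ) := by
      refine ⟨hmem, ?_⟩
      simp only
      rw [perMat_frame, rt_real h0 hr0]
    exact (hZ (hG h2)).2.2 F hF

/-- Specialising `s = s₀` in a polynomial over `Qbar`. -/
theorem exists_spec {ι : Type} {s₀ : ℂ} (ha : IsAlgebraic ℚ s₀)
    (F : MvPolynomial (Option (Fin 4 × ι)) Qbar) :
    ∃ F' : MvPolynomial (Fin 4 × ι) Qbar, ∀ M, ev₀ F' M = ev F (s₀, M) := by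
  let a : Qbar := ⟨s₀, mem_algebraicClosure_iff.mpr ha⟩
  refine ⟨MvPolynomial.aeval (fun o : Option (Fin 4 × ι) =>
    o.elim (MvPolynomial.C a) fun ij => MvPolynomial.X ij) F, ?_⟩
  intro M
  unfold ev₀ ev
  rw [← AlgHom.comp_apply, MvPolynomial.comp_aeval]
  congr 2
  ext o
  cases o with
  | none =>
    simp only [Option.elim, MvPolynomial.aeval_C]
    rfl
  | some ij => simp

theorem ptClosure_subset {ι : Type} {Y : Set (Matrix (Fin 4) ι ℂ)} {s₀ : ℂ} (h0 : s₀ ≠ 0)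
    (ha : IsAlgebraic ℚ s₀) {M₀ : Matrix (Fin 4) ι ℂ} (hM : M₀ ∈ Y)
    {G : Set (ℂ × Matrix (Fin 4) ι ℂ)} (hG : (s₀, M₀) ∈ G) :
    ptClosure Y M₀ ⊆ {M | (s₀, M) ∈ BVar Y G} := by
  intro M hMc
  rintro Z ⟨⟨I, rfl⟩, hZ⟩
  have hMY : M ∈ Y := by
    have h1 := hMc Y ⟨⟨∅, ?_⟩, hM⟩
    · exact h1
    · ext N
      simp
  refine ⟨h0, hMY, ?_⟩
  intro F hF
  obtain ⟨F', hF'⟩ := exists_spec ha F
  have h1 := hMc {N | N ∈ Y ∧ ev₀ F' N = 0} ⟨⟨{F'}, ?_⟩, hM, ?_⟩
  · rw [← hF']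
    exact h1.2
  · ext N
    simp
  · rw [hF']
    exact (hZ hG).2.2 F hF

theorem other_not_mem {ι : Type} {Y : Set (Matrix (Fin 4) ι ℂ)} {c : ℝ} (hc : 0 < c)
    {s₀ : ℂ} (h0 : s₀ ≠ 0) (ha : IsAlgebraic ℚ s₀) {γ : ι → ℝ → Pt} (h : Generates c s₀ γ)
    (hM : perMat γ ∈ Y) : Dm (-1) (perMat γ) ∉ ptClosure Y (perMat γ) := by
  obtain ⟨w, hw⟩ := IsAlgClosed.exists_pow_nat_eq s₀ (n := 2) (by norm_num)
  have hw0 : w ≠ 0 := by
    rintro rfl
    apply h0
    rw [← hw]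
    norm_num
  have hwa : IsAlgebraic ℚ w := by
    apply IsAlgebraic.of_pow (n := 2) (by norm_num)
    rw [hw]
    exact ha
  rw [← hw] at h
  obtain ⟨F, -, hF1, hF2⟩ := exists_relation hc hw0 h Qbar
    ⟨w, mem_algebraicClosure_iff.mpr hwa⟩ rfl
  intro hmem
  have h1 := hmem {N | N ∈ Y ∧ ev₀ F N = 0} ⟨⟨{F}, ?_⟩, hM, hF1⟩
  · exact hF2 h1.2
  · ext N
    simp

theorem strict {ι : Type} {Y : Set (Matrix (Fin 4) ι ℂ)}
    (hY : ∀ ρ : ℂ, ρ ≠ 0 → ∀ M ∈ Y, Dm ρ M ∈ Y) {c : ℝ} (hc : 0 < c) {s₀ : ℂ} (h0 : s₀ ≠ 0)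
    (ha : IsAlgebraic ℚ s₀) {γ : ι → ℝ → Pt} (h : Generates c s₀ γ) (hM : perMat γ ∈ Y)
    {G : Set (ℂ × Matrix (Fin 4) ι ℂ)} (hG : graph (Metric.ball s₀ ‖s₀‖) (frame s₀ γ) ⊆ G) :
    ptClosure Y (perMat γ) ⊂ {M | (s₀, M) ∈ BVar Y G} := by
  have hself : (s₀, perMat γ) ∈ G := by
    apply hG
    refine ⟨Metric.mem_ball_self (norm_pos_iff.mpr h0), ?_⟩
    simp only
    rw [frame_self h0]
  refine ⟨ptClosure_subset h0 ha hM hself, ?_⟩
  intro hsub
  exact other_not_mem hc h0 ha h hM (hsub (other_mem hY h0 hM hG))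

theorem GL4_stable : ∀ ρ : ℂ, ρ ≠ 0 → ∀ M ∈ GL4, Dm ρ M ∈ GL4 := by
  intro ρ hρ M hM
  show (Dm ρ M).det ≠ 0
  unfold Dm
  rw [Matrix.det_mul, Matrix.det_diagonal]
  apply mul_ne_zero _ hM
  rw [Fin.prod_univ_four]
  simp [dvec, hρ]

end

end Pool.Agent.H795R3.PeriodFam
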